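import Mathlib
import Pool.Agent.Lib.helper23.FBC

set_option autoImplicit false

namespace Pool.Agent.Results.MP_93c18e_an.Main

open Pool.Agent.Lib.helper23.FB MeasureTheory

universe u v

section
variable {E : Type u} [NormedAddCommGroup E] [NormedSpace ℝ E] {Ω : Type v} [MeasurableSpace Ω]
  {μ : Measure Ω}

theorem lift (e : StrongDual ℝ E ≃ₗᵢ[ℝ] Lp ℝ 1 μ) {F : Submodule ℝ E} {y : E} {η : ℝ} (hη : η < 1)
    (h : ∀ z ∈ F, ∀ t : ℝ, (1 - η) * (‖z‖ + |t|) ≤ ‖z + t • y‖) {m : ℕ}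
    (x : Fin m → StrongDual ℝ E) (hx : ∀ v : E, ‖v‖ ≤ 1 → ∑ i, |x i v| ≤ 1) {x0 : E}
    (h0 : ‖x0‖ ≤ 1) {θ : ℝ} (hθ : 0 < θ) : ∃ g : Fin m → StrongDual ℝ E,
      (∀ i, ∀ v ∈ F, |g i v - x i v| ≤ θ * ‖v‖) ∧ ∑ i, |x i x0| - m * θ ≤ ∑ i, |g i y| ∧
      ∀ v : E, ‖v‖ ≤ 1 → (1 - η) * ∑ i, |g i v| ≤ 1 + m * θ := by
  obtain ⟨C, u, u1, u2⟩ := ell_one μ (fun i => e (x i)) hθ
  choose ψ p1 p2 p3 using fun c => ext_one hη h (e.symm (u c)) ((e.symm (u c)).unit_le_opNorm x0 h0)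
  let x' : Fin m → StrongDual ℝ E := fun i => ∑ c ∈ C, c i • e.symm (u c)
  have a1 : ∀ i, ‖x' i - x i‖ ≤ θ := fun i => by
    rw [norm_sub_rev, ← e.norm_map]
    simpa [x'] using u1 i
  have a2 : ∀ i v, |x' i v - x i v| ≤ θ * ‖v‖ := fun i v =>
    ((x' i - x i).le_opNorm v).trans (mul_le_mul_of_nonneg_right (a1 i) (norm_nonneg _))
  refine ⟨fun i => ∑ c ∈ C, c i • ψ c, fun i v hv => ?_, ?_, fun v hv => ?_⟩
  · convert a2 i v using 3
    simp [x', p1 _ v hv]
  · have : ∀ i, |x i x0| - θ ≤ |(∑ c ∈ C, c i • ψ c) y| := fun i => by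
      have e1 : (∑ c ∈ C, c i • ψ c) y = x' i x0 := by simp [x', p2]
      have e2 := abs_sub_abs_le_abs_sub (x i x0) (x' i x0)
      rw [abs_sub_comm (x i x0)] at e2
      rw [e1]
      nlinarith [a2 i x0]
    simpa [Finset.sum_sub_distrib] using Finset.sum_le_sum fun i (_ : i ∈ Finset.univ) => this i
  · obtain ⟨s, s1, s2⟩ : ∃ s : Fin m → ℝ, (∀ i, |s i| ≤ 1) ∧
        ∀ i, |(∑ c ∈ C, c i • ψ c) v| = s i * (∑ c ∈ C, c i • ψ c) v :=
      ⟨fun i => if 0 ≤ (∑ c ∈ C, c i • ψ c) v then 1 else -1, fun i => by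
          beta_reduce
          split_ifs <;> simp,
        fun i => by
          beta_reduce
          split_ifs with hh
          · rw [abs_of_nonneg hh, one_mul]
          · rw [abs_of_neg (not_le.1 hh), neg_one_mul]⟩
    have b1 : ∑ i, |(∑ c ∈ C, c i • ψ c) v| = ∑ c ∈ C, (∑ i, s i * c i) * ψ c v := by
      simp only [s2]
      simp only [ContinuousLinearMap.sum_apply, ContinuousLinearMap.smul_apply, smul_eq_mul,
        Finset.mul_sum, Finset.sum_mul, mul_assoc]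
      exact Finset.sum_comm
    have b2 : ‖∑ c ∈ C, (∑ i, s i * c i) • u c‖ = ‖∑ i, s i • x' i‖ := by
      rw [← e.symm.norm_map]
      simp only [x', map_sum, map_smul, Finset.smul_sum, Finset.sum_smul, smul_smul]
      rw [Finset.sum_comm]
    have b3 : ‖∑ i, s i • x' i‖ ≤ 1 + m * θ := by
      refine ContinuousLinearMap.opNorm_le_of_unit_norm (by positivity) fun w hw => ?_
      have : ∀ i, |(s i • x' i) w| ≤ |x i w| + θ := fun i => by
        have := a2 i w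
        rw [hw, mul_one] at this
        rw [ContinuousLinearMap.smul_apply, smul_eq_mul, abs_mul]
        linarith [mul_le_of_le_one_left (abs_nonneg (x' i w)) (s1 i),
          abs_sub_abs_le_abs_sub (x' i w) (x i w)]
      rw [ContinuousLinearMap.sum_apply]
      refine (Finset.abs_sum_le_sum_abs _ _).trans ((Finset.sum_le_sum fun i _ => this i).trans ?_)
      simpa [Finset.sum_add_distrib] using hx w hw.le
    rw [b1, Finset.mul_sum]
    refine le_trans (Finset.sum_le_sum fun c _ => ?_) ((u2 _).trans (b2.le.trans b3))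
    have c1 := p3 c
    rw [e.symm.norm_map] at c1
    have c2 : (∑ i, s i * c i) * ψ c v ≤ |∑ i, s i * c i| * ‖ψ c‖ := (le_abs_self _).trans (by
      rw [abs_mul]
      exact mul_le_mul_of_nonneg_left ((ψ c).unit_le_opNorm v hv) (abs_nonneg _))
    nlinarith [abs_nonneg (∑ i, s i * c i)]

theorem two_dim (h : Octahedral E) (p : StrongDual ℝ E) : Submodule.span ℝ {p} ≠ ⊤ := by
  intro hp
  obtain ⟨x, hx, -⟩ := h ⊥ inferInstance 1 one_pos
  obtain ⟨y, -, hy⟩ := h (Submodule.span ℝ {x}) inferInstance (1 / 2) (by norm_num)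
  obtain ⟨g, g1, g2⟩ := exists_dual_vector ℝ x (by simp [hx])
  obtain ⟨a, a1, a2, -⟩ := ext_one (by norm_num) hy g (r := 0) (by simp)
  obtain ⟨b, b1, b2, -⟩ := ext_one (by norm_num) hy g (r := 1) (by simp [g1])
  have a3 := a1 x (Submodule.mem_span_singleton_self x)
  have b3 := b1 x (Submodule.mem_span_singleton_self x)
  obtain ⟨s, hs⟩ := Submodule.mem_span_singleton.1 (hp ▸ Submodule.mem_top : a ∈ _)
  obtain ⟨t, ht⟩ := Submodule.mem_span_singleton.1 (hp ▸ Submodule.mem_top : b ∈ _)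
  simp only [← hs, ← ht, ContinuousLinearMap.smul_apply, smul_eq_mul, g2, hx] at a2 a3 b2 b3
  rcases mul_eq_zero.1 a2 with h | h
  · simp [h] at a3
  · simp [h] at b2

theorem main (e : StrongDual ℝ E ≃ₗᵢ[ℝ] Lp ℝ 1 μ) (h : Octahedral E) : Octahedral (FBL E) := by
  have : Nontrivial (FBL E) := by
    obtain ⟨x, hx, -⟩ := h ⊥ inferInstance 1 one_pos
    obtain ⟨g, -, g2⟩ := exists_dual_vector ℝ x (by simp [hx])
    refine ⟨mk _ (Gen.delta x), 0, fun h => ?_⟩
    have : g x = 0 := congrArg (fun f : FBL E => f.1.1 g) h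
    simp [this, hx] at g2
  refine oct_of_fin fun n f hf δ hδ => ?_
  obtain ⟨ε, e0, e1, e2⟩ : ∃ ε : ℝ, 0 < ε ∧ 4 * ε ≤ 1 ∧ 18 * ε ≤ δ := by
    refine ⟨min (1 / 4) (δ / 18), by positivity, ?_, ?_⟩ <;>
      rw [← le_div_iff₀' (by norm_num)] <;> simp
  choose U hU hU' using fun t => exists_gen (f t) e0
  choose F hF C hC hC' using fun t => (hU t).fin
  obtain ⟨y, hy, hy'⟩ := h (⨆ t, F t) inferInstance ε e0
  have key : ∀ t, ∃ (m : ℕ) (g : Fin m → StrongDual ℝ E),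
      (∀ v : E, ‖v‖ ≤ 1 → ∑ i, |g i v| ≤ 1 + 4 * ε) ∧
      2 - 6 * ε ≤ ∑ i, |g i y| + ∑ i, |(U t).1.1 (g i)| := fun t => by
    obtain ⟨m, x, hx, hs⟩ := exists_fam (U t).1 e0
    have n1 : 1 - ε ≤ ‖(U t).1‖ := by
      have := norm_sub_norm_le (f t) (U t)
      have h2 : ‖(U t).1‖ = ‖U t‖ := rfl
      linarith [hf t, hU' t]
    obtain ⟨x0, h0, h1⟩ : ∃ x0 : E, ‖x0‖ ≤ 1 ∧ 1 - 2 * ε < ∑ i, |x i x0| := by
      by_contra hn
      push Not at hn
      have := sum_le (U t).1 x (by linarith) hn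
      nlinarith
    have c0 := hC t
    obtain ⟨θ, t0, t1, t2⟩ : ∃ θ : ℝ, 0 < θ ∧ m * θ ≤ ε ∧ m * (C t * θ) ≤ ε := by
      have hp : 0 < (m + 1) * (C t + 1) := by positivity
      refine ⟨ε / ((m + 1) * (C t + 1)), by positivity, ?_, ?_⟩
      · rw [← mul_div_assoc, div_le_iff₀ hp]
        nlinarith [mul_nonneg (mul_nonneg (Nat.cast_nonneg m) c0) e0.le, mul_nonneg c0 e0.le]
      · rw [← mul_div_assoc, ← mul_div_assoc, div_le_iff₀ hp]
        nlinarith [mul_nonneg (Nat.cast_nonneg m) e0.le, mul_nonneg c0 e0.le]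
    obtain ⟨g, g1, g2, g3⟩ := lift e (by linarith) hy' x hx h0 t0
    refine ⟨m, g, fun v hv => ?_, ?_⟩
    · have := g3 v hv
      by_contra hn
      nlinarith
    · have : ∀ i, |(U t).1.1 (x i)| - C t * θ ≤ |(U t).1.1 (g i)| := fun i => by
        have := hC' t (g i) (x i) θ t0.le fun v hv => g1 i v (Submodule.mem_iSup_of_mem t hv)
        rw [abs_sub_comm] at this
        linarith [abs_sub_abs_le_abs_sub ((U t).1.1 (x i)) ((U t).1.1 (g i))]
      have := Finset.sum_le_sum fun i (_ : i ∈ Finset.univ) => this i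
      simp only [Finset.sum_sub_distrib, Finset.sum_const, Finset.card_univ, Fintype.card_fin,
        nsmul_eq_mul] at this
      linarith
  choose m g g1 g2 using key
  obtain ⟨z, z1, z2, -⟩ := exists_mod' (two_dim h) (fun _ : Fin n => ()) (fun t => Fin (m t)) g
    (by positivity) g1 U hU Gen.zero (Gen.delta y).abs (fun x => by simp) e0
  refine ⟨z (), norm_le (z ()).1 fun k x hx =>
    (Finset.sum_le_sum fun i _ => z1 () _).trans (hx y hy.le), fun t => ?_⟩
  have a1 : 2 - 7 * ε ≤ (1 + 4 * ε + ε) * ‖z () + U t‖ := 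
    le_trans (by linarith) (le_trans (sub_le_sub_right (g2 t) ε) (z2 t))
  have a2 : 2 - 17 * ε ≤ ‖z () + U t‖ := by
    by_contra hn
    nlinarith
  have a3 : z () + U t = (f t + z ()) - (f t - U t) := by abel
  linarith [norm_sub_le (f t + z ()) (f t - U t), hU' t, congrArg norm a3]

end

theorem result (E : Type u) [NormedAddCommGroup E] [NormedSpace ℝ E] [CompleteSpace E]
    [Nontrivial E] (Ω : Type v) [MeasurableSpace Ω] (μ : Measure Ω)
    (e : StrongDual ℝ E ≃ₗᵢ[ℝ] Lp ℝ 1 μ) (h : Daugavet E) : Octahedral (FBL E) :=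
  main e h.oct

end Pool.Agent.Results.MP_93c18e_an.Main
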